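import Pool.Agent.H52.PSR.Targets

set_option autoImplicit false

/-!
# Row DIAG of the board psr_modules
-/

namespace Pool.Agent.H32.PSR

open Pool.Agent.H52.PSR Module

section lin
variable {k E : Type} [Field k] [Field E] [Algebra k E] {H : ℕ}

/-- the first combination -/
noncomputable def gg (e : Fin H → E) (a b : Fin H → k) : ((Fin H → k) × (Fin H → k)) →ₗ[k] E where
  toFun z := ∑ j, (a j * z.1 j - b j * z.2 j) • e j
  map_add' x y := by
    rw [← Finset.sum_add_distrib]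
    refine Finset.sum_congr rfl fun j _ => ?_
    rw [← add_smul]
    congr 1
    simp only [Prod.fst_add, Prod.snd_add, Pi.add_apply]
    ring
  map_smul' c x := by
    rw [Finset.smul_sum]
    refine Finset.sum_congr rfl fun j _ => ?_
    rw [smul_smul]
    congr 1
    simp only [Prod.smul_fst, Prod.smul_snd, Pi.smul_apply, smul_eq_mul, RingHom.id_apply]
    ring

theorem gg_apply (e : Fin H → E) (a b y w : Fin H → k) :
    gg e a b (y, w) = ∑ j, (a j * y j - b j * w j) • e j := rfl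

theorem l_sq (l : E →ₗ[k] k) (e : Fin H → E) (h : ∀ i j, i ≠ j → l (e i * e j) = 0) (c : Fin H → k) :
    l ((∑ j, c j • e j) ^ 2) = ∑ j, c j ^ 2 * l (e j * e j) := by
  rw [sq, Finset.sum_mul_sum, map_sum]
  refine Finset.sum_congr rfl fun i _ => ?_
  rw [map_sum, Finset.sum_eq_single i]
  · rw [smul_mul_smul_comm, map_smul, smul_eq_mul, sq]
  · intro j _ hj
    rw [smul_mul_smul_comm, map_smul, h i j hj.symm, smul_zero]
  · intro h
    exact absurd (Finset.mem_univ i) h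

/-- two squares -/
theorem pair (l : E →ₗ[k] k) (e : Fin H → E) (h : ∀ i j, i ≠ j → l (e i * e j) = 0) (a b : Fin H → k)
    (hab : ∀ j, (a j ^ 2 + b j ^ 2) * l (e j * e j) = 1) (y w : Fin H → k) :
    l ((gg e a b (y, w)) ^ 2) + l ((gg e b (-a) (y, w)) ^ 2) = ∑ j, y j ^ 2 + ∑ j, w j ^ 2 := by
  rw [gg_apply, gg_apply, l_sq l e h, l_sq l e h, ← Finset.sum_add_distrib, ← Finset.sum_add_distrib]
  refine Finset.sum_congr rfl fun j _ => ?_
  have h1 := hab j
  simp only [Pi.neg_apply]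
  linear_combination (y j ^ 2 + w j ^ 2) * h1

end lin

theorem pf_DIAG : T_DIAG := by
  classical
  intro p H _ E _ _ hp hcard
  have hfin : Fintype E := Fintype.ofFinite E
  have hpp : p.Prime := Fact.out
  -- characteristic
  have hH0 : H ≠ 0 := by
    rintro rfl
    rw [pow_zero, Nat.card_eq_one_iff_unique] at hcard
    exact not_subsingleton E hcard.1
  have hchar : CharP E p := by
    obtain ⟨q, hq⟩ := CharP.exists E
    have hqp : q.Prime := CharP.char_is_prime E q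
    have : Fact q.Prime := ⟨hqp⟩
    obtain ⟨n, hqn, hn⟩ := FiniteField.card E q
    rw [Nat.card_eq_fintype_card, hn] at hcard
    have h1 : q ∣ p ^ H := by
      rw [← hcard]
      exact dvd_pow_self q n.2.ne'
    have h2 : q ∣ p := hqp.dvd_of_dvd_pow h1
    have h3 : q = p := (Nat.prime_dvd_prime_iff_eq hqp hpp).mp h2
    rw [← h3]
    exact hq
  let _ : Algebra (ZMod p) E := ZMod.algebra E p
  have hfd : Module.Finite (ZMod p) E := Module.Finite.of_finite
  have hfr : finrank (ZMod p) E = H := by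
    have h1 := Module.natCard_eq_pow_finrank (K := ZMod p) (V := E)
    rw [hcard, Nat.card_zmod] at h1
    exact (Nat.pow_right_injective hpp.two_le h1).symm
  have : Invertible (2 : ZMod p) := invertibleOfNonzero (by
    intro h
    have h2 : (p : ℕ) ∣ 2 := (ZMod.natCast_eq_zero_iff 2 p).mp (by exact_mod_cast h)
    exact hp ((Nat.prime_dvd_prime_iff_eq hpp Nat.prime_two).mp h2))
  -- a nonzero functional
  obtain ⟨l, hl⟩ : ∃ l : E →ₗ[ZMod p] ZMod p, l 1 ≠ 0 := by
    by_contra hcon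
    push Not at hcon
    exact one_ne_zero ((forall_dual_apply_eq_zero_iff (ZMod p) (1 : E)).mp hcon)
  set B : LinearMap.BilinForm (ZMod p) E := (LinearMap.mul (ZMod p) E).compr₂ l with hB
  have hBa : ∀ x y, B x y = l (x * y) := fun x y => rfl
  have hsym : LinearMap.IsSymm B := ⟨fun x y => by
    rw [hBa, hBa, mul_comm]
    rfl⟩
  have hnd : B.SeparatingLeft := by
    intro x hx
    by_contra hx0
    apply hl
    have := hx x⁻¹
    rw [hBa, mul_inv_cancel₀ hx0] at this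
    exact this
  obtain ⟨v, hv⟩ := LinearMap.BilinForm.exists_orthogonal_basis hsym
  have hvn := hv.not_isOrtho_basis_self_of_separatingLeft hnd
  subst hfr
  have horth : ∀ i j, i ≠ j → l (v i * v j) = 0 := fun i j hij => hv hij
  have hex : ∀ j, ∃ a b : ZMod p, (a ^ 2 + b ^ 2) * l (v j * v j) = 1 := by
    intro j
    obtain ⟨a, b, hab⟩ := ZMod.sq_add_sq p (l (v j * v j))⁻¹
    refine ⟨a, b, ?_⟩
    rw [hab]
    exact inv_mul_cancel₀ (hvn j)
  choose a b hab using hex
  -- the coordinates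
  let Z : Fin 8 → (Fin (8 * finrank (ZMod p) E) → ZMod p) →ₗ[ZMod p] (Fin (finrank (ZMod p) E) → ZMod p) := fun i =>
    LinearMap.funLeft (ZMod p) (ZMod p) (fun j => finProdFinEquiv (i, j))
  have hZ : ∀ i z j, Z i z j = z (finProdFinEquiv (i, j)) := fun i z j => rfl
  let Φ : (Fin (8 * finrank (ZMod p) E) → ZMod p) →ₗ[ZMod p] (Fin 8 → E) := LinearMap.pi
    ![(gg v a b).comp ((Z 0).prod (Z 1)), (gg v b (-a)).comp ((Z 0).prod (Z 1)),
      (gg v a b).comp ((Z 2).prod (Z 3)), (gg v b (-a)).comp ((Z 2).prod (Z 3)),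
      (gg v a b).comp ((Z 4).prod (Z 5)), (gg v b (-a)).comp ((Z 4).prod (Z 5)),
      (gg v a b).comp ((Z 6).prod (Z 7)), (gg v b (-a)).comp ((Z 6).prod (Z 7))]
  refine ⟨l.toAddMonoidHom, Φ.toAddMonoidHom, ?_⟩
  intro z
  have e1 : l.toAddMonoidHom (N8 (Φ.toAddMonoidHom z)) = ∑ i : Fin 8, l ((Φ z i) ^ 2) := by
    change l (∑ i, (Φ z i) ^ 2) = _
    rw [map_sum]
  rw [e1]
  have e2 : ∑ i : Fin (8 * finrank (ZMod p) E), z i ^ 2 = ∑ i : Fin 8, ∑ j : Fin (finrank (ZMod p) E), Z i z j ^ 2 := by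
    rw [← Fintype.sum_prod_type' (fun (i : Fin 8) (j : Fin (finrank (ZMod p) E)) => Z i z j ^ 2)]
    exact (Fintype.sum_equiv finProdFinEquiv _ _ fun x => rfl).symm
  rw [e2, Fin.sum_univ_eight, Fin.sum_univ_eight]
  have p1 := pair l v horth a b hab (Z 0 z) (Z 1 z)
  have p2 := pair l v horth a b hab (Z 2 z) (Z 3 z)
  have p3 := pair l v horth a b hab (Z 4 z) (Z 5 z)
  have p4 := pair l v horth a b hab (Z 6 z) (Z 7 z)
  change l ((gg v a b (Z 0 z, Z 1 z)) ^ 2) + l ((gg v b (-a) (Z 0 z, Z 1 z)) ^ 2) +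
    l ((gg v a b (Z 2 z, Z 3 z)) ^ 2) + l ((gg v b (-a) (Z 2 z, Z 3 z)) ^ 2) +
    l ((gg v a b (Z 4 z, Z 5 z)) ^ 2) + l ((gg v b (-a) (Z 4 z, Z 5 z)) ^ 2) +
    l ((gg v a b (Z 6 z, Z 7 z)) ^ 2) + l ((gg v b (-a) (Z 6 z, Z 7 z)) ^ 2) = _
  linear_combination p1 + p2 + p3 + p4

end Pool.Agent.H32.PSR
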